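import Mathlib
import Pool.Agent.Q219.NC.Main
import Pool.Agent.Q219.NW.Count

/-!
# Higher Chow groups of `A × Z`, with `A` outside of a thin subset of a Newton stratum

Fix a prime `p`, a nonempty finite set `κ`, dimensions `g i ≥ 1` and, for each `i`, a symmetric
Newton polygon with slopes `s i j` and `1 - s i j` (`j < g i`, increasing in `j`, between `0` and
`1 / 2`, with integral break points: `IsPolygon (s i)`) whose smallest slope is at most `σ < 1 / 2`;
so it is any Newton polygon that is not the supersingular one. `NewtonStratum g s p a` is the set
of families of isogeny classes of abelian varieties `A_i` of dimension `g i` over the field with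
`p ^ a` elements having these Newton polygons: by the theorem of Honda and Tate it consists of
families of characteristic polynomials of Frobenius. Fix also a number field `E` in the complex
numbers and a number `r` which is smaller than all the dimensions `g i`. Let `devSum (s i)` be the
sum of the numbers `1 - 2 s i j`, `j < g i` (it is `g i` for ordinary abelian varieties, and positive).

We prove that the number of elements of `NewtonStratum g s p a` tends to infinity with `a`, and that
for all members, except for at most

  `C * a * p ^ (- a (1 - 2 σ) / 6) * |NewtonStratum g s p a|`

(`C` depends on `p`, `g`, `s`, `σ`, `E`, `r` only), the following is true (`BeilinsonTimes`).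

Let `A` be an abelian variety over the field with `Q = p ^ (a s')` elements, for some `s' > 0`,
which is isogenous to a product of powers of the `A_i`. Let `Z` be **any** smooth projective variety
over the field with `Q` elements such that each eigenvalue `ρ` of the Frobenius endomorphism on
the cohomology of `Z` has one of the following properties:

* small rank: the conjugates of `ρ` lie, up to powers, in a group generated by nonzero elements of
  `E` and `r` numbers (which may depend on `ρ`);
* small width: `ρ` has a weight `w`, and the sum of the `|2 λ - w|`, `λ` the slopes of the conjugates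
  of `ρ`, is smaller than `2 devSum (s i)` for all `i`.

For instance all Frobenius eigenvalues of a curve of genus `h` have small width if `h < devSum (s i)`
for all `i`, and those of a K3 surface have small width if `2 < devSum (s i)` for all `i` (the
sum of the `|2 λ - 2|` over all slopes of a K3 surface of finite height is `4`).

Suppose that the homologically trivial self-correspondences of degree zero of `A × Z` are nilpotent;
this holds if the motive of `Z` is finite-dimensional in the sense of Kimura and O'Sullivan, for
instance if `Z` is dominated by a product of curves. There are finitely many products `D j` of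
`deg j` divisors on `A` such that, for every `n` and `i`,

* `CH^i(A × Z, n)_ℚ = ⨁ D j × CH^(i - deg j)(Z, n)_ℚ`;
* **the conjecture of Beilinson, the injectivity of all cycle maps
  `CH^j(X, 2j - i) ⊗ ℚ_l → H^i(X, ℚ_l(j))^G`, holds for `X = A × Z` if and only if it holds for
  `X = Z`.**

By the theorem of Deligne on weights the target of the cycle map is zero for `i ≠ 2j` if `X` is
smooth and projective, so that the conjecture says that the cycle class maps on the Chow groups
`CH^i(X)_ℚ` are injective and that `CH^i(X, n)_ℚ = 0` for all `n ≥ 1` (`BeilinsonInjectivity`). In
the formal statement the higher Chow groups `CH^i(X, n)_ℚ` are a family `T n` of theories on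
which correspondences act, with Frobenius acting on the `i`-th part as multiplication by `Q ^ i`.

No case of the Tate conjecture is assumed for `Z`. For `Z` a point the conclusion, Beilinson's
conjecture for `A`, is known (Geisser, Kahn), as the Tate classes on `A` are generated by divisors.

The framework (`TheoryData`, `IsChow`, `IsWeil`, `MotivicData`, `HasKunneth`) is the one of starting
files on neighbouring questions (`Pool.Agent.W484.CK`, where `A` runs through all, or all ordinary,
isogeny classes over a field with `q` elements, `q → ∞`, and the condition on `Z` is the one of small
rank). Newton strata are thin subsets of the set of all isogeny classes, and the condition of small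
width contains varieties `Z` of arbitrary rank. The proof combines the sieve for Newton strata
(`Pool.Agent.Q219.NS`), the `p`-adic valuations of relations (`Pool.Agent.Q219.NW`) and the projector
given by the `D j`.
-/

set_option autoImplicit false

namespace Pool.Agent.Results.MP_b52861_ag.NewtonStrataProducts

open Polynomial Pool.Agent.Q219.NS Pool.Agent.Q219.NW Pool.Agent.Q219.NC

/-- The theorem for the family of isogeny classes over the field with `q` elements with the
Frobenius polynomials `F i`, of dimension `g i` and slopes `s i j`: the reduction of the conjecture of
Beilinson on higher Chow groups for `A × Z` to the one for `Z`, for all varieties `Z` whose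
Frobenius eigenvalues have rank at most `r` over `E` or width smaller than `2 * P`, where `P` is at
most the `devSum (s i)`. -/
def Holds {κ : Type} (g : κ → ℕ) (s : ∀ i, Fin (g i) → ℚ) (E : IntermediateField ℚ ℂ) (r q : ℕ)
    (F : κ → ℤ[X]) : Prop :=
  ∀ P : ℝ, (∀ i, P ≤ devSum (s i)) → BeilinsonTimes E r P q F

/-- **The conjecture of Beilinson on higher Chow groups for `A × Z` is equivalent to the one for `Z`,
for the abelian varieties `A` outside of a thin subset of a Newton stratum.** -/
theorem result {κ : Type} [Fintype κ] [Nonempty κ] (p : ℕ) [Fact p.Prime]
    -- dimensions and Newton polygons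
    (g : κ → ℕ) (s : ∀ i, Fin (g i) → ℚ) (hs : ∀ i, IsPolygon (s i))
    -- the smallest slopes
    (σ : ℚ) (hσ : ∀ i (h : 0 < g i), s i ⟨0, h⟩ ≤ σ) (hσ2 : σ < 1 / 2)
    -- the number field and the rank
    (E : IntermediateField ℚ ℂ) [FiniteDimensional ℚ E] (r : ℕ) (hr : ∀ i, r < g i) :
    (∀ N : ℕ, ∃ a₀ : ℕ, ∀ a, a₀ ≤ a →
      (NewtonStratum g s p a).Finite ∧ N ≤ (NewtonStratum g s p a).ncard) ∧
    ∃ C : ℝ, 0 < C ∧ ∀ a : ℕ, 0 < a →
      ({F ∈ NewtonStratum g s p a | ¬ Holds g s E r (p ^ a) F}.ncard : ℝ) ≤
        C * (a * (p : ℝ) ^ (-((a : ℝ) * (1 - 2 * σ) / 6))) *
          ((NewtonStratum g s p a).ncard : ℝ) := by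
  classical
  have hg : ∀ i, 1 ≤ g i := fun i => (Nat.zero_le r).trans_lt (hr i)
  obtain ⟨h1, C, hC, h2⟩ := count_slopes g s p E hg hs σ hσ hσ2
  refine ⟨h1, C, hC, fun a ha => h2 a ha _ fun f hm hd hf habs hdev P hP => ?_⟩
  have hp : p.Prime := Fact.out
  exact beilinsonTimes E r P (Nat.one_lt_pow ha.ne' hp.one_lt) fun s' hs' =>
    noRelAt_good E p a ha rfl r hm (fun i => by rw [hd i]; exact hr i) hf habs _ hdev P hP s' hs'

end Pool.Agent.Results.MP_b52861_ag.NewtonStrataProducts
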